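import Pool.Agent.V11109.Free.Leb
import Pool.Agent.V11109.Free.Avg

/-!
# Haar unitaries in `C([0,1])` and the absence of characters
-/

set_option autoImplicit false
set_option linter.unusedSectionVars false

open scoped ComplexOrder InnerProductSpace Topology
open MeasureTheory

namespace Pool.Agent.V11109.Char

open Pool.Agent.V11109.Free

/-- the unitaries `x ↦ exp(2πimx)` -/
noncomputable def uu (m : ℕ) : C(unitInterval, ℂ) where
  toFun x := Complex.exp (2 * Real.pi * Complex.I * m * ((x : ℝ) : ℂ))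
  continuous_toFun := by fun_prop

lemma uu_apply (m : ℕ) (x : unitInterval) :
    uu m x = Complex.exp (2 * Real.pi * Complex.I * m * ((x : ℝ) : ℂ)) := rfl

lemma star_uu_mul (m l : ℕ) (x : unitInterval) : (star (uu m) * uu l) x
    = Complex.exp (2 * Real.pi * Complex.I * ((l : ℂ) - m) * ((x : ℝ) : ℂ)) := by
  show star (uu m x) * uu l x = _
  rw [uu_apply, uu_apply, Complex.star_def, ← Complex.exp_conj, ← Complex.exp_add]
  congr 1
  simp only [map_mul, Complex.conj_ofReal, Complex.conj_I, map_ofNat, Complex.conj_natCast]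
  ring

lemma star_uu_uu (m : ℕ) : star (uu m) * uu m = 1 := by
  ext x
  rw [star_uu_mul]
  simp

lemma integral_exp_zero {d : ℤ} (hd : d ≠ 0) :
    ∫ x : unitInterval, Complex.exp (2 * Real.pi * Complex.I * d * ((x : ℝ) : ℂ)) = 0 := by
  have h2 : ∫ x : unitInterval, Complex.exp (2 * Real.pi * Complex.I * d * ((x : ℝ) : ℂ))
      = ∫ x in Set.Icc (0 : ℝ) 1, Complex.exp (2 * Real.pi * Complex.I * d * (x : ℂ)) :=
    integral_subtype_comap measurableSet_Icc
      (fun x : ℝ => Complex.exp (2 * Real.pi * Complex.I * d * (x : ℂ)))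
  have hne : (2 * Real.pi * Complex.I * d : ℂ) ≠ 0 := by
    have h1 : (d : ℂ) ≠ 0 := by exact_mod_cast hd
    have h3 : (Real.pi : ℂ) ≠ 0 := by exact_mod_cast Real.pi_ne_zero
    simp [h1, h3]
  rw [h2, integral_Icc_eq_integral_Ioc, ← intervalIntegral.integral_of_le zero_le_one,
    integral_exp_mul_complex hne]
  have h4 : Complex.exp (2 * Real.pi * Complex.I * d * (1 : ℝ)) = 1 := by
    rw [Complex.ofReal_one, mul_one, mul_comm]
    exact Complex.exp_int_mul_two_pi_mul_I d
  rw [h4]
  simp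

lemma leb_uu {m l : ℕ} (h : m ≠ l) : lebL (star (uu m) * uu l) = 0 := by
  rw [lebL_apply]
  have hd : ((l : ℤ) - m) ≠ 0 := by
    intro h0
    apply h
    omega
  rw [← integral_exp_zero hd]
  refine integral_congr_ae (Filter.Eventually.of_forall fun x => ?_)
  simp only
  rw [star_uu_mul]
  push_cast
  rfl

variable {A E : Type} [CStarAlgebra A] [CStarAlgebra E] {φ : A →ₗ[ℂ] ℂ} {θ : E →ₗ[ℂ] ℂ}
  {i : C(unitInterval, ℂ) →⋆ₐ[ℂ] E} {j : A →⋆ₐ[ℂ] E}

/-- A character of `C([0,1]) * A` agrees with the state on `A`. -/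
theorem char_eq (h : IsReducedFreeProd₂ lebL φ θ i j) (χ : E →⋆ₐ[ℂ] ℂ) (a : A) :
    χ (j a) = φ a := by
  refine character_eq h.toFamily (i := true) (j := false) (by decide) uu (fun m => star_uu_uu m)
    (fun m => ?_) (fun m l hml => leb_uu hml) χ a
  have := star_uu_uu m
  rwa [mul_comm] at this

end Pool.Agent.V11109.Char
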