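import Pool.Agent.V11109.Free.Avg
import Pool.Agent.V11109.PureExt.OK

/-!
# Approximate common eigenvectors
-/

set_option autoImplicit false
set_option linter.unusedSectionVars false

open scoped ComplexOrder InnerProductSpace Topology

namespace Pool.Agent.V11109.Char

open Pool.Agent.V11109.Free Filter

/-- the weights -/
noncomputable def y (k : ℕ) : ℝ := (1 / 2) ^ (k + 1)

lemma y_pos (k : ℕ) : 0 < y k := by unfold y; positivity

lemma y_le (k : ℕ) : y k ≤ 1 := by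
  unfold y
  exact pow_le_one₀ (by norm_num) (by norm_num)

lemma sum_y_sq (N : ℕ) : ∑ k ∈ Finset.range N, y k ^ 2 ≤ 1 / 3 := by
  have h1 : ∀ N : ℕ, ∑ k ∈ Finset.range N, y k ^ 2 = 1 / 3 * (1 - (1 / 4) ^ N) := by
    intro N
    induction N with
    | zero => simp
    | succ N ih =>
      rw [Finset.sum_range_succ, ih]
      have : y N ^ 2 = (1 / 4) ^ N * (1 / 4) := by
        unfold y
        rw [← pow_mul, mul_comm, pow_mul, pow_succ]
        norm_num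
      rw [this, pow_succ]
      ring
  rw [h1]
  have : (0 : ℝ) ≤ (1 / 4) ^ N := by positivity
  linarith

section

variable {H : Type} [NormedAddCommGroup H] [InnerProductSpace ℂ H] [CompleteSpace H]
  {K : ℕ → Submodule ℂ H} [∀ i, (K i).HasOrthogonalProjection]

/-- hypotheses on the operators -/
structure EigData (K : ℕ → Submodule ℂ H) (E : ℕ → H →L[ℂ] H) (Ω : H) : Prop where
  ort : ∀ i j, i ≠ j → K i ⟂ K j
  Om : ∀ i, Ω ∈ (K i)ᗮ
  Om1 : ‖Ω‖ = 1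
  map : ∀ i, ∀ ξ ∈ (K i)ᗮ, E i ξ ∈ K i
  sa : ∀ i ξ η, ⟪E i ξ, η⟫_ℂ = ⟪ξ, E i η⟫_ℂ
  sq : ∀ i ξ, E i (E i ξ) = ξ + (((y i - (y i)⁻¹ : ℝ) : ℂ)) • E i ξ

variable {E : ℕ → H →L[ℂ] H} {Ω : H}

/-- the components; the first entry is the sum of the words of length `n` and the second gives the
sums of the words of length `n` which begin in `k` -/
noncomputable def rec (E : ℕ → H →L[ℂ] H) (Ω : H) (N : ℕ) : ℕ → H × (ℕ → H)
  | 0 => (Ω, fun _ => 0)
  | n + 1 => (∑ k ∈ Finset.range N, (y k : ℂ) • E k ((rec E Ω N n).1 - (rec E Ω N n).2 k),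
      fun k => (y k : ℂ) • E k ((rec E Ω N n).1 - (rec E Ω N n).2 k))

/-- words of length `n` -/
noncomputable def VV (E : ℕ → H →L[ℂ] H) (Ω : H) (N n : ℕ) : H := (rec E Ω N n).1
/-- words of length `n` beginning in `k` -/
noncomputable def vv (E : ℕ → H →L[ℂ] H) (Ω : H) (N n k : ℕ) : H := (rec E Ω N n).2 k

lemma VV_zero (N : ℕ) : VV E Ω N 0 = Ω := rfl
lemma vv_zero (N k : ℕ) : vv E Ω N 0 k = 0 := rfl
lemma VV_succ (N n : ℕ) : VV E Ω N (n + 1) = ∑ k ∈ Finset.range N, vv E Ω N (n + 1) k := rfl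
lemma vv_succ (N n k : ℕ) :
    vv E Ω N (n + 1) k = (y k : ℂ) • E k (VV E Ω N n - vv E Ω N n k) := rfl

variable (h : EigData K E Ω)

include h

lemma props (N n : ℕ) : (∀ k < N, vv E Ω N n k ∈ K k) ∧
    ∀ k < N, VV E Ω N n - vv E Ω N n k ∈ (K k)ᗮ := by
  induction n with
  | zero =>
    refine ⟨fun k _ => ?_, fun k _ => ?_⟩
    · rw [vv_zero]; exact Submodule.zero_mem _
    · rw [VV_zero, vv_zero, sub_zero]; exact h.Om k
  | succ n ih =>
    have h1 : ∀ k < N, vv E Ω N (n + 1) k ∈ K k := by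
      intro k hk
      rw [vv_succ]
      exact Submodule.smul_mem _ _ (h.map k _ (ih.2 k hk))
    refine ⟨h1, fun k hk => ?_⟩
    rw [VV_succ, ← Finset.add_sum_erase _ _ (Finset.mem_range.mpr hk), add_sub_cancel_left]
    refine Submodule.sum_mem _ fun j hj => ?_
    obtain ⟨hjk, hj⟩ := Finset.mem_erase.mp hj
    exact Submodule.isOrtho_iff_le.mp (h.ort j k hjk) (h1 j (Finset.mem_range.mp hj))

lemma VV_Om (N n : ℕ) : ⟪Ω, VV E Ω N (n + 1)⟫_ℂ = 0 := by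
  rw [VV_succ, inner_sum]
  refine Finset.sum_eq_zero fun k hk => ?_
  exact Submodule.inner_left_of_mem_orthogonal ((props h N (n + 1)).1 k (Finset.mem_range.mp hk))
    (h.Om k)

lemma norm_map_ort {k : ℕ} {ξ : H} (hξ : ξ ∈ (K k)ᗮ) : ‖E k ξ‖ = ‖ξ‖ := by
  have h1 : ⟪E k ξ, E k ξ⟫_ℂ = ⟪ξ, ξ⟫_ℂ := by
    rw [h.sa, h.sq, inner_add_right, inner_smul_right]
    have : ⟪ξ, E k ξ⟫_ℂ = 0 := Submodule.inner_left_of_mem_orthogonal (h.map k ξ hξ) hξ
    rw [this, mul_zero, add_zero]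
  rw [inner_self_eq_norm_sq_to_K, inner_self_eq_norm_sq_to_K] at h1
  have h2 : ‖E k ξ‖ ^ 2 = ‖ξ‖ ^ 2 := by exact_mod_cast h1
  nlinarith [norm_nonneg (E k ξ), norm_nonneg ξ, sq_nonneg (‖E k ξ‖ - ‖ξ‖)]

lemma norm_split {N n k : ℕ} (hk : k < N) :
    ‖VV E Ω N n‖ ^ 2 = ‖VV E Ω N n - vv E Ω N n k‖ ^ 2 + ‖vv E Ω N n k‖ ^ 2 := by
  have h1 : ⟪VV E Ω N n - vv E Ω N n k, vv E Ω N n k⟫_ℂ = 0 :=
    Submodule.inner_left_of_mem_orthogonal ((props h N n).1 k hk) ((props h N n).2 k hk)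
  have h2 := norm_add_sq_eq_norm_sq_add_norm_sq_of_inner_eq_zero _ _ h1
  rw [sub_add_cancel] at h2
  rw [sq, sq, sq]
  exact h2

lemma norm_vv_le {N n k : ℕ} (hk : k < N) : ‖vv E Ω N n k‖ ≤ ‖VV E Ω N n‖ := by
  have h1 := norm_split h hk (n := n)
  have h2 := sq_nonneg ‖VV E Ω N n - vv E Ω N n k‖
  exact abs_le_of_sq_le_sq' (by linarith) (norm_nonneg _) |>.2

lemma norm_sub_le' {N n k : ℕ} (hk : k < N) :
    ‖VV E Ω N n - vv E Ω N n k‖ ^ 2 ≤ ‖VV E Ω N n‖ ^ 2 := by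
  have h1 := norm_split h hk (n := n)
  have h2 := sq_nonneg ‖vv E Ω N n k‖
  linarith

lemma norm_VV_succ (N n : ℕ) : ‖VV E Ω N (n + 1)‖ ^ 2 ≤ 1 / 3 * ‖VV E Ω N n‖ ^ 2 := by
  have h0 : VV E Ω N (n + 1) = ∑ k ∈ Finset.range N,
      (if k < N then vv E Ω N (n + 1) k else 0) := by
    rw [VV_succ]
    refine Finset.sum_congr rfl fun k hk => ?_
    rw [if_pos (Finset.mem_range.mp hk)]
  rw [h0, norm_sum_sq h.ort _ _ (fun k => by
    by_cases hk : k < N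
    · rw [if_pos hk]; exact (props h N (n + 1)).1 k hk
    · rw [if_neg hk]; exact Submodule.zero_mem _)]
  calc ∑ k ∈ Finset.range N, ‖(if k < N then vv E Ω N (n + 1) k else 0)‖ ^ 2
      ≤ ∑ k ∈ Finset.range N, y k ^ 2 * ‖VV E Ω N n‖ ^ 2 := by
        refine Finset.sum_le_sum fun k hk => ?_
        have hk' := Finset.mem_range.mp hk
        rw [if_pos hk', vv_succ, norm_smul, norm_map_ort h ((props h N n).2 k hk'), mul_pow,
          Complex.norm_real, Real.norm_eq_abs, sq_abs]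
        have := norm_sub_le' h hk' (n := n)
        gcongr
    _ = (∑ k ∈ Finset.range N, y k ^ 2) * ‖VV E Ω N n‖ ^ 2 := by rw [Finset.sum_mul]
    _ ≤ 1 / 3 * ‖VV E Ω N n‖ ^ 2 := by
        gcongr
        exact sum_y_sq N

lemma norm_VV_le (N n : ℕ) : ‖VV E Ω N n‖ ^ 2 ≤ (1 / 3) ^ n := by
  induction n with
  | zero => rw [VV_zero, h.Om1]; norm_num
  | succ n ih =>
    refine (norm_VV_succ h N n).trans ?_
    rw [pow_succ (1 / 3 : ℝ) n]
    linarith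

/-- the approximate eigenvector -/
noncomputable def zeta (E : ℕ → H →L[ℂ] H) (Ω : H) (N n : ℕ) : H :=
  ∑ m ∈ Finset.range (n + 1), VV E Ω N m

omit h in
lemma zeta_succ (N n : ℕ) : zeta E Ω N (n + 1) = zeta E Ω N n + VV E Ω N (n + 1) := by
  rw [zeta, Finset.sum_range_succ]
  rfl

lemma inner_zeta (N n : ℕ) : ⟪Ω, zeta E Ω N n⟫_ℂ = 1 := by
  induction n with
  | zero =>
    rw [zeta, Finset.sum_range_one, VV_zero, inner_self_eq_norm_sq_to_K, h.Om1]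
    simp
  | succ n ih => rw [zeta_succ, inner_add_right, ih, VV_Om h, add_zero]

lemma one_le_norm_zeta (N n : ℕ) : 1 ≤ ‖zeta E Ω N n‖ := by
  have h1 := norm_inner_le_norm (𝕜 := ℂ) Ω (zeta E Ω N n)
  rw [inner_zeta h, h.Om1, one_mul, norm_one] at h1
  exact h1

lemma eig_formula {N k : ℕ} (n : ℕ) :
    E k (zeta E Ω N n) = (y k : ℂ) • zeta E Ω N n +
      ((((y k)⁻¹ : ℝ) : ℂ) • vv E Ω N (n + 1) k + (y k : ℂ) • vv E Ω N n k
        - (y k : ℂ) • VV E Ω N n) := by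
  have hy : (y k : ℂ) ≠ 0 := by exact_mod_cast (y_pos k).ne'
  have hE : ∀ n, E k (VV E Ω N n - vv E Ω N n k) = (((y k)⁻¹ : ℝ) : ℂ) • vv E Ω N (n + 1) k := by
    intro n
    rw [vv_succ, smul_smul]
    push_cast
    rw [inv_mul_cancel₀ hy, one_smul]
  induction n with
  | zero =>
    have h1 := hE 0
    rw [VV_zero, vv_zero, sub_zero] at h1
    rw [zeta, Finset.sum_range_one, VV_zero, h1, vv_zero]
    simp
  | succ n ih =>
    rw [zeta_succ, map_add, ih]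
    have h2 : E k (VV E Ω N (n + 1)) = (((y k)⁻¹ : ℝ) : ℂ) • vv E Ω N (n + 1 + 1) k
        + E k (vv E Ω N (n + 1) k) := by
      rw [← hE, map_sub]
      abel
    have h3 : E k (vv E Ω N (n + 1) k) = (y k : ℂ) • (VV E Ω N n - vv E Ω N n k)
        + ((y k - (y k)⁻¹ : ℝ) : ℂ) • vv E Ω N (n + 1) k := by
      rw [vv_succ, map_smul, h.sq, smul_add, smul_comm]
    rw [h2, h3]
    push_cast
    simp only [smul_add, smul_sub, sub_smul]
    abel

lemma eig_error {N k n : ℕ} (hk : k < N) :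
    ‖E k (zeta E Ω N n) - (y k : ℂ) • zeta E Ω N n‖
      ≤ (y k)⁻¹ * ‖VV E Ω N (n + 1)‖ + 2 * ‖VV E Ω N n‖ := by
  rw [eig_formula h n, add_sub_cancel_left]
  have h1 : ‖(((y k)⁻¹ : ℝ) : ℂ) • vv E Ω N (n + 1) k‖ ≤ (y k)⁻¹ * ‖VV E Ω N (n + 1)‖ := by
    rw [norm_smul, Complex.norm_real, Real.norm_eq_abs, abs_of_pos (inv_pos.mpr (y_pos k))]
    gcongr
    · exact (inv_pos.mpr (y_pos k)).le
    · exact norm_vv_le h hk
  have h2 : ‖(y k : ℂ) • vv E Ω N n k‖ ≤ ‖VV E Ω N n‖ := by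
    rw [norm_smul, Complex.norm_real, Real.norm_eq_abs, abs_of_pos (y_pos k)]
    calc y k * ‖vv E Ω N n k‖ ≤ 1 * ‖VV E Ω N n‖ := by
          gcongr
          · exact y_le k
          · exact norm_vv_le h hk
      _ = _ := one_mul _
  have h3 : ‖(y k : ℂ) • VV E Ω N n‖ ≤ ‖VV E Ω N n‖ := by
    rw [norm_smul, Complex.norm_real, Real.norm_eq_abs, abs_of_pos (y_pos k)]
    calc y k * ‖VV E Ω N n‖ ≤ 1 * ‖VV E Ω N n‖ := by
          gcongr
          exact y_le k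
      _ = _ := one_mul _
  calc _ ≤ ‖(((y k)⁻¹ : ℝ) : ℂ) • vv E Ω N (n + 1) k + (y k : ℂ) • vv E Ω N n k‖
        + ‖(y k : ℂ) • VV E Ω N n‖ := norm_sub_le _ _
    _ ≤ (‖(((y k)⁻¹ : ℝ) : ℂ) • vv E Ω N (n + 1) k‖ + ‖(y k : ℂ) • vv E Ω N n k‖)
        + ‖(y k : ℂ) • VV E Ω N n‖ := by
        gcongr
        exact norm_add_le _ _
    _ ≤ _ := by linarith

/-- the diagonal sequence consists of approximate eigenvectors -/
lemma tendsto_eig (k : ℕ) :
    Tendsto (fun n => ‖E k (zeta E Ω n n) - (y k : ℂ) • zeta E Ω n n‖) atTop (𝓝 0) := by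
  have hV : ∀ N n, ‖VV E Ω N n‖ ≤ Real.sqrt ((1 / 3) ^ n) := fun N n =>
    Real.le_sqrt_of_sq_le (norm_VV_le h N n)
  have hlim : Tendsto (fun n : ℕ => Real.sqrt ((1 / 3 : ℝ) ^ n)) atTop (𝓝 0) := by
    have h1 := tendsto_pow_atTop_nhds_zero_of_lt_one (r := (1 / 3 : ℝ)) (by norm_num) (by norm_num)
    have h2 := (Real.continuous_sqrt.tendsto 0).comp h1
    rwa [Real.sqrt_zero] at h2
  have h1 : Tendsto (fun n : ℕ => (y k)⁻¹ * Real.sqrt ((1 / 3 : ℝ) ^ (n + 1))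
      + 2 * Real.sqrt ((1 / 3 : ℝ) ^ n)) atTop (𝓝 0) := by
    have h2 := ((hlim.comp (tendsto_add_atTop_nat 1)).const_mul (y k)⁻¹).add (hlim.const_mul 2)
    simpa using h2
  refine squeeze_zero' (Eventually.of_forall fun n => norm_nonneg _) ?_ h1
  filter_upwards [eventually_gt_atTop k] with n hn
  refine (eig_error h hn).trans ?_
  gcongr
  · exact (inv_pos.mpr (y_pos k)).le
  · exact hV _ _
  · exact hV _ _

end

end Pool.Agent.V11109.Char
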