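import Pool.Agent.V11109.Char.Eigen
import Pool.Agent.V11109.Free.Leb

/-!
# A reduced free product of two-dimensional algebras with a character
-/

set_option autoImplicit false
set_option linter.unusedSectionVars false
set_option linter.style.haveILetI false

open scoped ComplexOrder InnerProductSpace Topology

namespace Pool.Agent.V11109.Char

open Pool.Agent.V11109.Free Filter

/-- the trace on `ℂ × ℂ` with weights `1 / (1 + y²)` and `y² / (1 + y²)` -/
noncomputable def tr (k : ℕ) : ℂ × ℂ →ₗ[ℂ] ℂ :=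
  (((1 + y k ^ 2)⁻¹ : ℝ) : ℂ) • (LinearMap.fst ℂ ℂ ℂ + ((y k ^ 2 : ℝ) : ℂ) • LinearMap.snd ℂ ℂ ℂ)

lemma tr_apply (k : ℕ) (c : ℂ × ℂ) :
    tr k c = (((1 + y k ^ 2)⁻¹ : ℝ) : ℂ) * (c.1 + ((y k ^ 2 : ℝ) : ℂ) * c.2) := rfl

lemma tr_state (k : ℕ) : IsState (tr k) where
  one := by
    rw [tr_apply]
    have h1 : (1 + (y k : ℂ) ^ 2) ≠ 0 := by
      have : (0 : ℝ) < 1 + y k ^ 2 := by positivity
      exact_mod_cast this.ne'
    show (((1 + y k ^ 2)⁻¹ : ℝ) : ℂ) * (1 + ((y k ^ 2 : ℝ) : ℂ) * 1) = 1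
    push_cast
    rw [mul_one, inv_mul_cancel₀ h1]
  pos c := by
    rw [tr_apply]
    have h1 : ∀ z : ℂ, star z * z = ((‖z‖ ^ 2 : ℝ) : ℂ) := by
      intro z
      rw [Complex.star_def, Complex.conj_mul']
      push_cast
      rfl
    show 0 ≤ (((1 + y k ^ 2)⁻¹ : ℝ) : ℂ) * (star c.1 * c.1 + ((y k ^ 2 : ℝ) : ℂ) * (star c.2 * c.2))
    rw [h1, h1, ← Complex.ofReal_mul, ← Complex.ofReal_add, ← Complex.ofReal_mul]
    exact Complex.zero_le_real.mpr (by positivity)

lemma tr_faithful (k : ℕ) (c : ℂ × ℂ) (h : tr k (star c * c) = 0) : c = 0 := by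
  have h1 : ∀ z : ℂ, star z * z = ((‖z‖ ^ 2 : ℝ) : ℂ) := by
    intro z
    rw [Complex.star_def, Complex.conj_mul']
    push_cast
    rfl
  rw [tr_apply] at h
  change (((1 + y k ^ 2)⁻¹ : ℝ) : ℂ) * (star c.1 * c.1 + ((y k ^ 2 : ℝ) : ℂ) * (star c.2 * c.2)) = 0
    at h
  rw [h1, h1, ← Complex.ofReal_mul, ← Complex.ofReal_add, ← Complex.ofReal_mul,
    Complex.ofReal_eq_zero, mul_eq_zero] at h
  have hy := y_pos k
  rcases h with h | h
  · exfalso
    have : (0 : ℝ) < (1 + y k ^ 2)⁻¹ := by positivity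
    exact this.ne' h
  · have h2 : 0 ≤ ‖c.1‖ ^ 2 := by positivity
    have h3 : 0 ≤ y k ^ 2 * ‖c.2‖ ^ 2 := by positivity
    have h4 : ‖c.1‖ ^ 2 = 0 := by linarith
    have h5 : y k ^ 2 * ‖c.2‖ ^ 2 = 0 := by linarith
    have h6 : ‖c.2‖ ^ 2 = 0 := by
      rcases mul_eq_zero.mp h5 with h7 | h7
      · exfalso
        have : (0 : ℝ) < y k ^ 2 := by positivity
        exact this.ne' h7
      · exact h7
    apply Prod.ext
    · exact norm_eq_zero.mp (pow_eq_zero_iff two_ne_zero |>.mp h4)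
    · exact norm_eq_zero.mp (pow_eq_zero_iff two_ne_zero |>.mp h6)

/-- the centred normalized element -/
noncomputable def cc (k : ℕ) : ℂ × ℂ := ((y k : ℂ), -((y k)⁻¹ : ℝ))

lemma tr_cc (k : ℕ) : tr k (cc k) = 0 := by
  have hy : (y k : ℂ) ≠ 0 := by exact_mod_cast (y_pos k).ne'
  rw [tr_apply, cc]
  push_cast
  field_simp
  ring

lemma star_cc (k : ℕ) : star (cc k) = cc k := by
  apply Prod.ext
  · show star (y k : ℂ) = y k
    exact Complex.conj_ofReal _
  · show star (-(((y k)⁻¹ : ℝ) : ℂ)) = -(((y k)⁻¹ : ℝ) : ℂ)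
    rw [star_neg]
    congr 1
    exact Complex.conj_ofReal _

lemma cc_sq (k : ℕ) : cc k * cc k = 1 + ((y k - (y k)⁻¹ : ℝ) : ℂ) • cc k := by
  have hy : (y k : ℂ) ≠ 0 := by exact_mod_cast (y_pos k).ne'
  apply Prod.ext
  · show (y k : ℂ) * y k = 1 + ((y k - (y k)⁻¹ : ℝ) : ℂ) * y k
    push_cast
    field_simp
    ring
  · show -(((y k)⁻¹ : ℝ) : ℂ) * -(((y k)⁻¹ : ℝ) : ℂ)
      = 1 + ((y k - (y k)⁻¹ : ℝ) : ℂ) * -(((y k)⁻¹ : ℝ) : ℂ)
    push_cast
    field_simp
    ring

/-- each element is a combination of `1` and `cc k` -/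
lemma decomp (k : ℕ) (c : ℂ × ℂ) : ∃ α β : ℂ, c = α • 1 + β • cc k ∧ c.1 = α + β * y k := by
  have hy : (y k : ℂ) ≠ 0 := by exact_mod_cast (y_pos k).ne'
  have h1 : (1 + (y k : ℂ) ^ 2) ≠ 0 := by
    have : (0 : ℝ) < 1 + y k ^ 2 := by positivity
    exact_mod_cast this.ne'
  refine ⟨c.1 - (c.1 - c.2) * y k / (1 + y k ^ 2) * y k, (c.1 - c.2) * y k / (1 + y k ^ 2), ?_, ?_⟩
  · apply Prod.ext
    · show c.1 = (c.1 - (c.1 - c.2) * y k / (1 + y k ^ 2) * y k) * 1
        + (c.1 - c.2) * y k / (1 + y k ^ 2) * (y k : ℂ)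
      ring
    · show c.2 = (c.1 - (c.1 - c.2) * y k / (1 + y k ^ 2) * y k) * 1
        + (c.1 - c.2) * y k / (1 + y k ^ 2) * -(((y k)⁻¹ : ℝ) : ℂ)
      push_cast
      field_simp
      ring
  · ring

section Chr

variable {A : Type} [CStarAlgebra A] {φ : A →ₗ[ℂ] ℂ} {e : ℕ → ℂ × ℂ →⋆ₐ[ℂ] A}
  (h : IsReducedFreeProd (fun _ => ℂ × ℂ) tr φ e)

include h

/-- The reduced free product has a character. -/
theorem exists_character : Nonempty (A →⋆ₐ[ℂ] ℂ) := by
  obtain ⟨H, _, _, _, π, Ω, hg⟩ := exists_GNS h.state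
  have hΩ : ‖Ω‖ = 1 := by
    have := hg.norm h.state 1
    rwa [map_one, one_apply_eq_self, nn_one h.state] at this
  let K : ℕ → Submodule ℂ H := fun k => KK (D := fun _ => ℂ × ℂ) tr e π Ω k
  haveI hKp : ∀ k, (K k).HasOrthogonalProjection := fun k => by
    show (KK (D := fun _ => ℂ × ℂ) tr e π Ω k).HasOrthogonalProjection
    infer_instance
  let E : ℕ → H →L[ℂ] H := fun k => π (e k (cc k))
  have hE : EigData K E Ω := by
    refine ⟨fun i j hij => KK_ortho h hg hij, fun i => ?_, hΩ, fun i ξ hξ => ?_,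
      fun i ξ η => ?_, fun i ξ => ?_⟩
    · have := notHead_mem_ortho h hg (red_nil (t := tr)) (j := i) (by intro z hz; simp at hz)
      rwa [ev_nil, map_one, one_apply_eq_self] at this
    · exact ortho_map h hg (tr_cc i) hξ
    · show ⟪π (e i (cc i)) ξ, η⟫_ℂ = ⟪ξ, π (e i (cc i)) η⟫_ℂ
      conv_rhs => rw [← star_cc i, map_star, map_star, ContinuousLinearMap.star_eq_adjoint,
        ContinuousLinearMap.adjoint_inner_right]
    · show π (e i (cc i)) (π (e i (cc i)) ξ) = _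
      rw [← mul_apply_eq_comp, ← map_mul, ← map_mul, cc_sq, map_add, map_one, map_add, map_one,
        map_smul, map_smul, add_apply, smul_apply, one_apply_eq_self]
  -- the vectors
  let z : ℕ → H := fun n => zeta E Ω n n
  have hz : ∀ n, 1 ≤ ‖z n‖ := fun n => one_le_norm_zeta hE n n
  have hlim : ∀ k, Tendsto (fun n => ‖E k (z n) - (y k : ℂ) • z n‖) atTop (𝓝 0) :=
    fun k => tendsto_eig hE k
  have hzn : ∀ n, 0 < ‖z n‖ := fun n => lt_of_lt_of_le one_pos (hz n)
  -- the vector states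
  let ψ : ℕ → A →L[ℂ] ℂ := fun n => LinearMap.mkContinuous
    { toFun := fun a => ((‖z n‖ ^ 2 : ℝ) : ℂ)⁻¹ * ⟪z n, π a (z n)⟫_ℂ
      map_add' := fun a b => by rw [map_add, add_apply, inner_add_right, mul_add]
      map_smul' := fun c a => by
        rw [map_smul, smul_apply, inner_smul_right, RingHom.id_apply, smul_eq_mul]; ring } 1
    (fun a => by
      show ‖((‖z n‖ ^ 2 : ℝ) : ℂ)⁻¹ * ⟪z n, π a (z n)⟫_ℂ‖ ≤ 1 * ‖a‖
      have h1 : ‖⟪z n, π a (z n)⟫_ℂ‖ ≤ ‖z n‖ * (‖a‖ * ‖z n‖) := by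
        refine (norm_inner_le_norm _ _).trans ?_
        gcongr
        refine ((π a).le_opNorm _).trans ?_
        rw [hg.norm_map h]
      rw [norm_mul, norm_inv, Complex.norm_real, Real.norm_eq_abs, abs_of_nonneg (by positivity)]
      have h2 := hzn n
      calc (‖z n‖ ^ 2)⁻¹ * ‖⟪z n, π a (z n)⟫_ℂ‖ ≤ (‖z n‖ ^ 2)⁻¹ * (‖z n‖ * (‖a‖ * ‖z n‖)) := by
            gcongr
        _ = 1 * ‖a‖ := by field_simp)
  have hψ : ∀ n a, ψ n a = ((‖z n‖ ^ 2 : ℝ) : ℂ)⁻¹ * ⟪z n, π a (z n)⟫_ℂ := fun n a => rfl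
  obtain ⟨g, -, hg'⟩ := Pool.Agent.V11109.PureExt.exists_ultralimit ψ
    (fun n => LinearMap.mkContinuous_norm_le _ (by norm_num) _)
  have hle : (hyperfilter ℕ : Filter ℕ) ≤ atTop := Nat.hyperfilter_le_atTop
  -- `g` is an eigenfunctional
  have key : ∀ k a, g (a * e k (cc k)) = y k * g a := by
    intro k a
    have h1 : Tendsto (fun n => ψ n (a * e k (cc k)) - y k * ψ n a)
        (hyperfilter ℕ : Filter ℕ) (𝓝 (g (a * e k (cc k)) - y k * g a)) :=
      (hg' _).sub ((hg' a).const_mul _)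
    have h2 : Tendsto (fun n => ψ n (a * e k (cc k)) - y k * ψ n a) atTop (𝓝 0) := by
      rw [tendsto_zero_iff_norm_tendsto_zero]
      have h3 : Tendsto (fun n => ‖a‖ * ‖E k (z n) - (y k : ℂ) • z n‖) atTop (𝓝 0) := by
        have := (hlim k).const_mul ‖a‖
        rwa [mul_zero] at this
      refine squeeze_zero (fun n => norm_nonneg _) (fun n => ?_) h3
      have h4 : ψ n (a * e k (cc k)) - y k * ψ n a
          = ((‖z n‖ ^ 2 : ℝ) : ℂ)⁻¹ * ⟪z n, π a (E k (z n) - (y k : ℂ) • z n)⟫_ℂ := by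
        rw [hψ, hψ, map_mul, mul_apply_eq_comp, map_sub, inner_sub_right, map_smul,
          inner_smul_right]
        ring
      rw [h4]
      have h1 : ‖⟪z n, π a (E k (z n) - (y k : ℂ) • z n)⟫_ℂ‖
          ≤ ‖z n‖ * (‖a‖ * ‖E k (z n) - (y k : ℂ) • z n‖) := by
        refine (norm_inner_le_norm _ _).trans ?_
        gcongr
        refine ((π a).le_opNorm _).trans ?_
        rw [hg.norm_map h]
      rw [norm_mul, norm_inv, Complex.norm_real, Real.norm_eq_abs, abs_of_nonneg (by positivity)]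
      have h5 := hzn n
      have h6 := hz n
      calc (‖z n‖ ^ 2)⁻¹ * ‖⟪z n, π a (E k (z n) - (y k : ℂ) • z n)⟫_ℂ‖
          ≤ (‖z n‖ ^ 2)⁻¹ * (‖z n‖ * (‖a‖ * ‖E k (z n) - (y k : ℂ) • z n‖)) := by gcongr
        _ = (‖z n‖)⁻¹ * (‖a‖ * ‖E k (z n) - (y k : ℂ) • z n‖) := by
            field_simp
        _ ≤ 1 * (‖a‖ * ‖E k (z n) - (y k : ℂ) • z n‖) := by
            gcongr
            exact inv_le_one_of_one_le₀ h6
        _ = _ := one_mul _
    have h3 := tendsto_nhds_unique h1 (h2.mono_left hle)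
    linear_combination h3
  have hg1 : g 1 = 1 := by
    refine tendsto_nhds_unique (hg' 1) (tendsto_const_nhds.congr fun n => ?_)
    rw [hψ, map_one, one_apply_eq_self, inner_self_eq_norm_sq_to_K]
    have h5 : (‖z n‖ : ℂ) ≠ 0 := by exact_mod_cast (hzn n).ne'
    push_cast
    field_simp
    rfl
  have hgs : ∀ a, g (star a) = star (g a) := by
    intro a
    have h1 : Tendsto (fun n => star (ψ n a)) (hyperfilter ℕ : Filter ℕ) (𝓝 (star (g a))) :=
      (continuous_star.tendsto _).comp (hg' a)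
    refine tendsto_nhds_unique (hg' (star a)) (h1.congr fun n => ?_)
    rw [hψ, hψ, star_mul', map_star, ContinuousLinearMap.star_eq_adjoint,
      ContinuousLinearMap.adjoint_inner_right]
    congr 1
    · rw [star_inv₀, Complex.star_def, Complex.conj_ofReal]
    · rw [Complex.star_def, inner_conj_symm]
  -- multiplicativity
  have hk : ∀ k (c : ℂ × ℂ) a, g (a * e k c) = g a * c.1 := by
    intro k c a
    obtain ⟨α, β, h1, h2⟩ := decomp k c
    have h3 : e k c = α • 1 + β • e k (cc k) := by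
      conv_lhs => rw [h1]
      rw [map_add, map_smul, map_smul, map_one]
    rw [h3, mul_add, mul_smul_comm, mul_smul_comm, mul_one, map_add, map_smul, map_smul, key, h2]
    simp only [smul_eq_mul]
    ring
  have hk' : ∀ k (c : ℂ × ℂ) a, g (a * e k c) = g a * g (e k c) := by
    intro k c a
    have h1 := hk k c 1
    rw [one_mul, hg1, one_mul] at h1
    rw [h1, hk]
  have hmul0 : ∀ b ∈ StarAlgebra.adjoin ℂ (⋃ k, Set.range (e k)),
      (∀ a, g (a * b) = g a * g b) ∧ ∀ a, g (a * star b) = g a * g (star b) := by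
    intro b hb
    induction hb using StarAlgebra.adjoin_induction with
    | mem x hx =>
      obtain ⟨k, c, rfl⟩ := Set.mem_iUnion.mp hx
      refine ⟨fun a => hk' k c a, fun a => ?_⟩
      rw [← map_star]
      exact hk' k _ a
    | algebraMap r =>
      refine ⟨fun a => ?_, fun a => ?_⟩
      · rw [Algebra.algebraMap_eq_smul_one, mul_smul_comm, mul_one, map_smul, map_smul, hg1,
          smul_eq_mul, smul_eq_mul, mul_one, mul_comm]
      · rw [Algebra.algebraMap_eq_smul_one, star_smul, star_one, mul_smul_comm, mul_one, map_smul,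
          map_smul, hg1, smul_eq_mul, smul_eq_mul, mul_one, mul_comm]
    | add x y _ _ h1 h2 =>
      refine ⟨fun a => ?_, fun a => ?_⟩
      · rw [mul_add, map_add, map_add, h1.1, h2.1, mul_add]
      · rw [star_add, mul_add, map_add, map_add, h1.2, h2.2, mul_add]
    | mul x y _ _ h1 h2 =>
      refine ⟨fun a => ?_, fun a => ?_⟩
      · rw [← mul_assoc, h2.1, h1.1, h2.1, mul_assoc]
      · rw [star_mul, ← mul_assoc, h1.2, h2.2, h1.2, mul_assoc]
    | star x _ h1 =>
      refine ⟨fun a => h1.2 a, fun a => ?_⟩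
      rw [star_star]
      exact h1.1 a
  have hmul : ∀ b a, g (a * b) = g a * g b := by
    intro b a
    have hcl : IsClosed {b : A | g (a * b) = g a * g b} :=
      isClosed_eq (by fun_prop) (by fun_prop)
    have hb : b ∈ closure (StarAlgebra.adjoin ℂ (⋃ k, Set.range (e k)) : Set A) := by
      have h1 : b ∈ (StarAlgebra.adjoin ℂ (⋃ j, Set.range (e j))).topologicalClosure := by
        rw [h.generating]; exact StarSubalgebra.mem_top
      rwa [← SetLike.mem_coe, StarSubalgebra.topologicalClosure_coe] at h1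
    exact hcl.closure_subset_iff.mpr (fun b hb => (hmul0 b hb).1 a) hb
  exact ⟨{ toFun := g
           map_one' := hg1
           map_mul' := fun a b => hmul b a
           map_zero' := map_zero g
           map_add' := map_add g
           commutes' := fun r => by
             rw [Algebra.algebraMap_eq_smul_one, map_smul, hg1]
             simp
           map_star' := hgs }⟩

end Chr

end Pool.Agent.V11109.Char
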